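import Pool.Agent.K1H43.NI.Api

set_option autoImplicit false

/-!
# MP_17d087_al: rigidity (`S_FTHREE` from `S_DOM` and `S_LL`)
-/

namespace Pool.Agent.K1H38.NI

open K1H43.NI K1H43.NI.Ltr

variable {k K : Type} [Field k] [Ring K] (A : Api k K)

theorem V_of_zero (n : ℕ) : A.V n 0 := by
  induction n with
  | zero => trivial
  | succ n ih =>
    rw [A.V_succ]
    refine ⟨map_zero _, fun m => ?_⟩
    rw [map_zero]
    exact ih

theorem lcancel (hd : ∀ f g : K, f * g = 0 → f = 0 ∨ g = 0) {a b c : K} (ha : a ≠ 0)
    (h : a * b = a * c) : b = c := by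
  have h1 : a * (b - c) = 0 := by rw [mul_sub, h, sub_self]
  exact sub_eq_zero.1 ((hd _ _ h1).resolve_left ha)

theorem rcancel (hd : ∀ f g : K, f * g = 0 → f = 0 ∨ g = 0) {a b c : K} (ha : a ≠ 0)
    (h : b * a = c * a) : b = c := by
  have h1 : (b - c) * a = 0 := by rw [sub_mul, h, sub_self]
  exact sub_eq_zero.1 ((hd _ _ h1).resolve_right ha)

theorem pair_case (h2 : S_LL) (hd : ∀ f g : K, f * g = 0 → f = 0 ∨ g = 0) {u u' v v' : K}
    (hv : v ≠ 0) (hv' : v' ≠ 0) (hX : ¬ A.XX v) (hX' : ¬ A.XX v') (huv : u * v = u' * v')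
    {al al' ga ga' r r' : K} (e1 : al * v - al' * v' = A.L X * r + A.L Y * r')
    (e2 : ga * v - ga' * v' = -(A.L z * r + A.L h * r'))
    (hr : A.ep al = 0 → A.ep al' = 0 → r = 0 ∧ r' = 0) :
    (∃ e, u = u' * e ∨ u' = u * e) ∨ (al * v = al' * v' ∧ ga * v = ga' * v') := by
  by_cases h0 : r = 0 ∧ r' = 0
  · right
    rw [h0.1, h0.2] at e1 e2
    simp only [mul_zero, add_zero, neg_zero] at e1 e2
    exact ⟨sub_eq_zero.1 e1, sub_eq_zero.1 e2⟩
  · left
    have hrr : r ≠ 0 ∨ r' ≠ 0 := by
      by_contra hc
      push Not at hc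
      exact h0 hc
    by_cases ha : A.ep al = 0
    · have ha' : A.ep al' ≠ 0 := fun ha' => h0 (hr ha ha')
      have e1' : al' * v' - al * v = A.L X * (-r) + A.L Y * (-r') := by
        rw [← neg_sub, e1, mul_neg, mul_neg]
        abel
      have e2' : ga' * v' - ga * v = -(A.L z * (-r) + A.L h * (-r')) := by
        rw [← neg_sub, e2, mul_neg, mul_neg]
        abel
      have hrr' : -r ≠ 0 ∨ -r' ≠ 0 := by
        rw [neg_ne_zero, neg_ne_zero]
        exact hrr
      rcases h2 k K A al' al ga' ga v' v (-r) (-r') e1' e2' hrr' ha' with h | h | ⟨e, he⟩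
      · exact absurd h hX'
      · exact absurd h hX
      · refine ⟨e, Or.inl (rcancel hd hv ?_)⟩
        rw [huv, he, mul_assoc]
    · rcases h2 k K A al al' ga ga' v v' r r' e1 e2 hrr ha with h | h | ⟨e, he⟩
      · exact absurd h hX
      · exact absurd h hX'
      · refine ⟨e, Or.inr (rcancel hd hv' ?_)⟩
        rw [← huv, he, mul_assoc]

theorem fthree_ok (hdm : S_DOM) (h2 : S_LL) : S_FTHREE := by
  intro k K _ _ A u u' v v' hu hu' hv hv' hX hX' huv
  obtain ⟨hd, ord, hV, -, hep⟩ := hdm k K A
  obtain ⟨n, hn⟩ : ∃ n, n = ord u := ⟨_, rfl⟩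
  induction n generalizing u u' with
  | zero =>
    have h0 : A.ep u ≠ 0 := (hep u hu).1 hn.symm
    obtain ⟨w, hw⟩ := A.unit u h0
    refine ⟨(w⁻¹ : Kˣ) * u', Or.inr ?_⟩
    rw [← hw, ← mul_assoc, w.mul_inv, one_mul]
  | succ n ih =>
    have h0 : A.ep u = 0 := by
      by_contra hc
      have := (hep u hu).2 hc
      omega
    by_cases h0' : A.ep u' = 0
    swap
    · obtain ⟨w, hw⟩ := A.unit u' h0'
      refine ⟨(w⁻¹ : Kˣ) * u, Or.inl ?_⟩
      rw [← hw, ← mul_assoc, w.mul_inv, one_mul]
    -- the letter
    have hV1 : A.V (n + 1) u := (hV u hu _).2 hn.le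
    have hV2 : ¬ A.V (n + 1 + 1) u := fun hc => by
      have := (hV u hu _).1 hc
      omega
    obtain ⟨m, hm⟩ : ∃ m, ¬ A.V (n + 1) (A.D m u) := by
      by_contra hc
      push Not at hc
      exact hV2 ((A.V_succ).2 ⟨h0, hc⟩)
    have hDm : A.D m u ≠ 0 := by
      intro hc
      rw [hc] at hm
      exact hm (V_of_zero A _)
    have hord : n = ord (A.D m u) := by
      have a1 := (hV _ hDm n).1 (((A.V_succ).1 hV1).2 m)
      have a2 : ¬ (n + 1 ≤ ord (A.D m u)) := fun hc => hm ((hV _ hDm _).2 hc)
      omega
    -- the key cancellation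
    have key : A.D m u * v = A.D m u' * v' → ∃ e, u = u' * e ∨ u' = u * e := by
      intro he
      have hDm' : A.D m u' ≠ 0 := by
        intro hc
        rw [hc, zero_mul] at he
        rcases hd _ _ he with h | h
        · exact hDm h
        · exact hv h
      obtain ⟨e, he1 | he1⟩ := ih (A.D m u) (A.D m u') hDm hDm' he hord
      · refine ⟨e, Or.inl (rcancel hd hv ?_)⟩
        have : e * v = v' := by
          refine lcancel hd hDm' ?_
          rw [← mul_assoc, ← he1, he]
        rw [huv, mul_assoc, this]
      · refine ⟨e, Or.inr (rcancel hd hv' ?_)⟩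
        have : e * v' = v := by
          refine lcancel hd hDm ?_
          rw [← mul_assoc, ← he1, he]
        rw [← huv, mul_assoc, this]
    by_cases hfree : Api.Free m
    · refine key ?_
      have h3 := congrArg (A.D m) huv
      rwa [A.D_mul hfree, A.D_mul hfree, h0, h0', map_zero, zero_mul, zero_mul, zero_add,
        zero_add] at h3
    · have hm4 : (m = a1 ∨ m = c1) ∨ (m = a2 ∨ m = c2) := by
        unfold Api.Free at hfree
        tauto
      rcases hm4 with hm4 | hm4
      · have e1 := congrArg (A.D a1) huv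
        have e2 := congrArg (A.D c1) huv
        rw [A.D_a1_prod, A.D_a1_prod, h0, h0', map_zero, zero_mul, zero_mul, zero_add,
          zero_add] at e1
        rw [A.D_c1_prod, A.D_c1_prod, h0, h0', map_zero, zero_mul, zero_mul, zero_add,
          zero_add] at e2
        obtain ⟨c, hc⟩ : ∃ c, c = A.ep (A.D a1 u) := ⟨_, rfl⟩
        obtain ⟨c', hc'⟩ : ∃ c', c' = A.ep (A.D a1 u') := ⟨_, rfl⟩
        rw [← hc, ← hc'] at e1 e2
        have hcom : ∀ (a : k) (l f : K), A.C a * (l * f) = l * (A.C a * f) := by
          intro a l f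
          rw [← mul_assoc, A.C_comm, mul_assoc]
        have f1 : A.D a1 u * v - A.D a1 u' * v' =
            A.L X * (A.C c * A.D X v - A.C c' * A.D X v') +
            A.L Y * (A.C c * A.D Y v - A.C c' * A.D Y v') := by
          have : A.D a1 u * v - A.D a1 u' * v' = A.C c * A.Xi v - A.C c' * A.Xi v' := by
            have e3 := sub_eq_zero.2 e1
            rw [← sub_eq_zero, ← e3]
            abel
          rw [this]
          unfold Api.Xi
          simp only [mul_add, mul_sub, hcom]
          abel
        have f2 : A.D c1 u * v - A.D c1 u' * v' =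
            -(A.L z * (A.C c * A.D X v - A.C c' * A.D X v') +
            A.L h * (A.C c * A.D Y v - A.C c' * A.D Y v')) := by
          have : A.D c1 u * v - A.D c1 u' * v' = -(A.C c * A.Ze v - A.C c' * A.Ze v') := by
            have e3 := sub_eq_zero.2 e2
            rw [← sub_eq_zero, ← e3]
            abel
          rw [this]
          unfold Api.Ze
          simp only [mul_add, mul_sub, hcom]
          abel
        rcases pair_case A h2 hd hv hv' hX hX' huv f1 f2 (fun g1 g2 => by
          rw [← hc] at g1
          rw [← hc'] at g2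
          rw [g1, g2]
          simp) with g | ⟨g1, g2⟩
        · exact g
        · rcases hm4 with rfl | rfl
          · exact key g1
          · exact key g2
      · have e1 := congrArg (A.D a2) huv
        have e2 := congrArg (A.D c2) huv
        rw [A.D_a2_prod, A.D_a2_prod, h0, h0', map_zero, zero_mul, zero_mul, zero_add,
          zero_add] at e1
        rw [A.D_c2_prod, A.D_c2_prod, h0, h0', map_zero, zero_mul, zero_mul, zero_add,
          zero_add] at e2
        obtain ⟨c, hc⟩ : ∃ c, c = A.ep (A.D a2 u) := ⟨_, rfl⟩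
        obtain ⟨c', hc'⟩ : ∃ c', c' = A.ep (A.D a2 u') := ⟨_, rfl⟩
        rw [← hc, ← hc'] at e1 e2
        have hcom : ∀ (a : k) (l f : K), A.C a * (l * f) = l * (A.C a * f) := by
          intro a l f
          rw [← mul_assoc, A.C_comm, mul_assoc]
        have f1 : A.D a2 u * v - A.D a2 u' * v' =
            A.L X * (A.C c * A.D X v - A.C c' * A.D X v') + A.L Y * 0 := by
          have : A.D a2 u * v - A.D a2 u' * v' =
              A.C c * (A.L X * A.D X v) - A.C c' * (A.L X * A.D X v') := by
            have e3 := sub_eq_zero.2 e1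
            rw [← sub_eq_zero, ← e3]
            abel
          rw [this]
          simp only [mul_sub, hcom, mul_zero, add_zero]
        have f2 : A.D c2 u * v - A.D c2 u' * v' =
            -(A.L z * (A.C c * A.D X v - A.C c' * A.D X v') + A.L h * 0) := by
          have : A.D c2 u * v - A.D c2 u' * v' =
              -(A.C c * (A.L z * A.D X v) - A.C c' * (A.L z * A.D X v')) := by
            have e3 := sub_eq_zero.2 e2
            rw [← sub_eq_zero, ← e3]
            abel
          rw [this]
          simp only [mul_sub, hcom, mul_zero, add_zero]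
        rcases pair_case A h2 hd hv hv' hX hX' huv f1 f2 (fun g1 g2 => by
          rw [← hc] at g1
          rw [← hc'] at g2
          rw [g1, g2]
          simp) with g | ⟨g1, g2⟩
        · exact g
        · rcases hm4 with rfl | rfl
          · exact key g1
          · exact key g2

end Pool.Agent.K1H38.NI
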