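import Pool.Agent.K1H43.NI.Api

set_option autoImplicit false

/-!
# MP_17d087_al: Lemma L (`S_LL`)
-/

namespace Pool.Agent.K1H38.NI

open K1H43.NI K1H43.NI.Ltr

variable {k K : Type} [Field k] [Ring K] (A : Api k K)

theorem exists_inv {f : K} (h : A.ep f ≠ 0) : ∃ g : K, f * g = 1 ∧ g * f = 1 ∧ A.ep g ≠ 0 := by
  obtain ⟨u, rfl⟩ := A.unit f h
  refine ⟨(u⁻¹ : Kˣ), u.mul_inv, u.inv_mul, fun h0 => ?_⟩
  have h1 : A.ep ((u : K) * (u⁻¹ : Kˣ)) = 1 := by rw [u.mul_inv, map_one]
  rw [map_mul, h0, mul_zero] at h1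
  exact zero_ne_one h1

theorem D_free_XY {n : Ltr} (hn : Api.Free n) (hX : n ≠ X) (hY : n ≠ Y) (r r' : K) :
    A.D n (A.L X * r + A.L Y * r') = 0 := by
  rw [map_add, A.D_free_L hn, A.D_free_L hn, if_neg hX, if_neg hY, add_zero]

theorem ll_ok : S_LL := by
  intro k K _ _ A al al' ga ga' v v' r r' h1 h2 hr hal
  obtain ⟨ali, hi1, hi2, hi3⟩ := exists_inv A hal
  set Xi : K := A.L X * r + A.L Y * r' with hXi
  set Z : K := A.L z * r + A.L h * r' with hZ
  have hv : v = ali * (Xi + al' * v') := by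
    rw [← h1, sub_add_cancel, ← mul_assoc, hi2, one_mul]
  obtain ⟨eta, heta⟩ : ∃ eta : K, eta = ga * ali := ⟨_, rfl⟩
  obtain ⟨mu, hmu⟩ : ∃ mu : K, mu = ga' - eta * al' := ⟨_, rfl⟩
  have hga : ga * v = eta * Xi + eta * (al' * v') := by
    rw [heta]
    conv_lhs => rw [hv]
    rw [← mul_assoc, mul_add]
  have hmv : mu * v' = Z + eta * Xi := by
    rw [hmu, sub_mul, mul_assoc]
    rw [hga] at h2
    have h3 : ga' * v' = eta * Xi + eta * (al' * v') + Z := by
      rw [← sub_eq_zero] at h2 ⊢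
      rw [← neg_eq_zero, ← h2]
      abel
    rw [h3]
    abel
  by_cases hm0 : A.ep mu = 0
  · -- third alternative
    refine Or.inr (Or.inr ?_)
    have hz : A.D z mu * v' = r + A.D z eta * Xi := by
      have h4 := congrArg (A.D z) hmv
      rw [A.D_mul Api.free_z, hm0, map_zero, zero_mul, zero_add, map_add, A.D_mul Api.free_z,
        hXi, D_free_XY A Api.free_z (by decide) (by decide), mul_zero, zero_add, hZ, map_add,
        A.D_free_L Api.free_z, A.D_free_L Api.free_z, if_pos rfl, if_neg (by decide),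
        add_zero] at h4
      exact h4
    have hh : A.D h mu * v' = r' + A.D h eta * Xi := by
      have h4 := congrArg (A.D h) hmv
      rw [A.D_mul Api.free_h, hm0, map_zero, zero_mul, zero_add, map_add, A.D_mul Api.free_h,
        hXi, D_free_XY A Api.free_h (by decide) (by decide), mul_zero, zero_add, hZ, map_add,
        A.D_free_L Api.free_h, A.D_free_L Api.free_h, if_neg (by decide), if_pos rfl,
        zero_add] at h4
      exact h4
    obtain ⟨N, hN⟩ : ∃ N : K, N = 1 + A.L X * A.D z eta + A.L Y * A.D h eta := ⟨_, rfl⟩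
    have hepN : A.ep N ≠ 0 := by
      rw [hN, map_add, map_add, map_mul, map_mul, A.ep_L, A.ep_L, map_one]
      simp
    obtain ⟨Ni, hn1, hn2, -⟩ := exists_inv A hepN
    have hNX : (A.L X * A.D z mu + A.L Y * A.D h mu) * v' = N * Xi := by
      have key : ∀ s s' : K, A.L X * (r + s) + A.L Y * (r' + s') =
          (A.L X * r + A.L Y * r') + A.L X * s + A.L Y * s' := by
        intro s s'
        rw [mul_add, mul_add]
        abel
      rw [add_mul, mul_assoc, mul_assoc, hz, hh, hN, key, add_mul, add_mul, one_mul,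
        mul_assoc, mul_assoc, ← hXi]
    have hX2 : Xi = Ni * (A.L X * A.D z mu + A.L Y * A.D h mu) * v' := by
      rw [mul_assoc, hNX, ← mul_assoc, hn2, one_mul]
    refine ⟨ali * (Ni * (A.L X * A.D z mu + A.L Y * A.D h mu) + al'), ?_⟩
    rw [mul_assoc, add_mul, ← hX2]
    exact hv
  · obtain ⟨mui, hm1, hm2, hm3⟩ := exists_inv A hm0
    have hv' : v' = mui * (Z + eta * Xi) := by
      rw [← hmv, ← mul_assoc, hm2, one_mul]
    by_cases he0 : A.ep eta = 0
    · left
      refine ⟨ali * (1 + al' * mui * eta), ali * al' * mui, r, r', ?_, hr, ?_⟩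
      · rw [map_mul, map_add, map_mul, he0, mul_zero, add_zero, map_one, mul_one]
        exact hi3
      · rw [← hXi, ← hZ]
        conv_lhs => rw [hv, hv']
        noncomm_ring
    · right; left
      refine ⟨mui * eta, mui, r, r', ?_, hr, ?_⟩
      · rw [map_mul]
        exact mul_ne_zero hm3 he0
      · rw [← hXi, ← hZ]
        conv_lhs => rw [hv']
        noncomm_ring

end Pool.Agent.K1H38.NI
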